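import Pool.Agent.H34.TAM.Stmts3
import Pool.Agent.H53.AUT.GRA

/-!
# Row IDN of the board `per`
-/

set_option autoImplicit false

noncomputable section

open Filter
open scoped Topology TensorProduct

namespace Pool.PER

open Pool.CGR Pool.CGS Pool.TAM Pool.AUT MulOpposite

namespace H53IDN

open Pool.AUT.H53GRA

lemma mul_geo {m : ℕ} (L : Matrix (Fin m) (Fin m) (Te m)) (N : ℕ) :
    (1 - L) * geo L N = 1 - L ^ (N + 1) := by
  unfold geo
  exact mul_neg_geom_sum L (N + 1)

lemma geo_mul {m : ℕ} (L : Matrix (Fin m) (Fin m) (Te m)) (N : ℕ) :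
    geo L N * (1 - L) = 1 - L ^ (N + 1) := by
  unfold geo
  exact geom_sum_mul_neg L (N + 1)

/-- The trace of a product. -/
lemma kap_mul {m : ℕ} {T : Type} [Ring T] [Algebra ℂ T] (θ : T →ₗ[ℂ] ℂ)
    (A B : Matrix (Fin m) (Fin m) T) :
    kap θ (A * B) = ∑ j, ∑ k, θ (A j k * B k j) := by
  show ∑ j, θ ((A * B) j j) = _
  refine Finset.sum_congr rfl (fun j _ => ?_)
  rw [Matrix.mul_apply, map_sum]

end H53IDN

open H53IDN Pool.AUT.H53GRA

theorem idn_thm (h1 : CHNStmt) (h2 : COMStmt) (h3 : TDRStmt) (h4 : TRMStmt) (h5 : LGTStmt) :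
    IDNStmt := by
  intro m D hD t ht F L hL N δ hδ i P e he
  have hφ : ∀ j, FreeAlgebra.lift ℂ F (io j) = F j := fun j => FreeAlgebra.lift_ι_apply F j
  set φ : Fr m →ₐ[ℂ] Fr m := FreeAlgebra.lift ℂ F with hφd
  obtain ⟨hder, htr⟩ := h3 m
  obtain ⟨hκ, hδm⟩ := h4 m (Te m)
  have hd2 : IsDer (d2 δ) := hder δ hδ
  have hT : ∀ A B : Matrix (Fin m) (Fin m) (Te m), kap (tt t) (A * B) = kap (tt t) (B * A) :=
    fun A B => hκ (tt t) ((htr t).1 ht) A B
  set NP : Matrix (Fin m) (Fin m) (Te m) :=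
    Matrix.of fun j l => if j = i then ph φ (D l P) else 0 with hNP
  set Nx : Matrix (Fin m) (Fin m) (Te m) := Matrix.of fun l k => D k (δ (io l)) with hNx
  set Er : Matrix (Fin m) (Fin m) (Te m) := Matrix.of fun j k => D k (e j) with hEr
  have key : NP * (1 - L) + Er = mp (d2 δ) (1 - L) + (1 - L) * Nx := by
    ext j k
    rw [Matrix.add_apply, Matrix.add_apply, Matrix.mul_apply, Matrix.mul_apply]
    have c1 := h1 m D hD φ P k
    have c2 := h2 m D hD δ hδ (F j) k
    have c3 : D k (δ (F j)) = (∑ l, NP j l * (1 - L) l k) + Er j k := by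
      rw [he j, map_add]
      have c4 : D k (if j = i then φ P else 0) = ∑ l, NP j l * (1 - L) l k := by
        by_cases hji : j = i
        · rw [if_pos hji, c1]
          refine Finset.sum_congr rfl (fun l _ => ?_)
          rw [hNP, Matrix.of_apply, if_pos hji, hφ l, hL l k]
        · rw [if_neg hji, map_zero]
          symm
          refine Finset.sum_eq_zero (fun l _ => ?_)
          rw [hNP, Matrix.of_apply, if_neg hji, zero_mul]
      rw [c4]
      rfl
    rw [← c3, c2]
    have c5 : mp (d2 δ) (1 - L) j k = d2 δ (D k (F j)) := by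
      rw [hL j k]
      rfl
    rw [c5]
    congr 1
    refine Finset.sum_congr rfl (fun l _ => ?_)
    rw [hL j l]
    rfl
  have hM : mp (d2 δ) (1 - L) = - mp (d2 δ) L := by
    rw [map_sub]
    have e1 : mp (d2 δ) (1 : Matrix (Fin m) (Fin m) (Te m)) = 0 := by
      ext j k
      show d2 δ ((1 : Matrix (Fin m) (Fin m) (Te m)) j k) = 0
      rw [Matrix.one_apply]
      split_ifs
      · exact der_one hd2
      · exact map_zero _
    rw [e1, zero_sub]
  have hLG : kap (tt t) (geo L N * mp (d2 δ) L) = ∑ j, tt t (d2 δ (lo L N j j)) :=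
    h5 (Matrix (Fin m) (Fin m) (Te m)) (kap (tt t)) (mp (d2 δ)) hT
      (fun a b => hδm (d2 δ) hd2 a b) L N
  -- multiply and take the trace
  have k1 : kap (tt t) (geo L N * (NP * (1 - L) + Er)) =
      kap (tt t) (geo L N * (mp (d2 δ) (1 - L) + (1 - L) * Nx)) := by rw [key]
  have l1 : kap (tt t) (geo L N * (NP * (1 - L) + Er)) =
      kap (tt t) NP - kap (tt t) (NP * L ^ (N + 1)) + kap (tt t) (geo L N * Er) := by
    rw [mul_add, map_add, hT (geo L N) (NP * (1 - L)), mul_assoc, mul_geo, mul_sub, mul_one,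
      map_sub]
  have l2 : kap (tt t) (geo L N * (mp (d2 δ) (1 - L) + (1 - L) * Nx)) =
      - (∑ j, tt t (d2 δ (lo L N j j))) + (kap (tt t) Nx - kap (tt t) (L ^ (N + 1) * Nx)) := by
    have n1 : kap (tt t) (geo L N * mp (d2 δ) (1 - L)) = - ∑ j, tt t (d2 δ (lo L N j j)) := by
      rw [hM, ← hLG]
      exact (congrArg (kap (tt t)) (mul_neg (geo L N) (mp (d2 δ) L))).trans (map_neg _ _)
    have n2 : geo L N * ((1 - L) * Nx) = Nx - L ^ (N + 1) * Nx := by
      rw [← mul_assoc, geo_mul, sub_mul, one_mul]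
    rw [mul_add, map_add, n1, n2, map_sub]
  rw [l1, l2] at k1
  have m1 : kap (tt t) NP = tt t (ph φ (D i P)) := by
    show ∑ j, tt t (NP j j) = _
    rw [Finset.sum_eq_single i]
    · rw [hNP, Matrix.of_apply, if_pos rfl]
    · intro j _ hj
      rw [hNP, Matrix.of_apply, if_neg hj, map_zero]
    · intro h
      exact absurd (Finset.mem_univ i) h
  have m2 : kap (tt t) (NP * L ^ (N + 1)) = ∑ k, tt t (ph φ (D k P) * (L ^ (N + 1)) k i) := by
    rw [kap_mul, Finset.sum_eq_single i]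
    · refine Finset.sum_congr rfl (fun k _ => ?_)
      rw [hNP, Matrix.of_apply, if_pos rfl]
    · intro j _ hj
      refine Finset.sum_eq_zero (fun k _ => ?_)
      rw [hNP, Matrix.of_apply, if_neg hj, zero_mul, map_zero]
    · intro h
      exact absurd (Finset.mem_univ i) h
  have m3 : kap (tt t) (geo L N * Er) = ∑ j, ∑ k, tt t (geo L N j k * D j (e k)) := by
    rw [kap_mul]
    rfl
  have m4 : kap (tt t) (L ^ (N + 1) * Nx) =
      ∑ j, ∑ k, tt t ((L ^ (N + 1)) j k * D j (δ (io k))) := by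
    rw [kap_mul]
    rfl
  have m5 : kap (tt t) Nx = ∑ k, tt t (D k (δ (io k))) := rfl
  rw [m1, m2, m3, m4, m5] at k1
  linear_combination k1

end Pool.PER

end
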